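import Pool.Agent.Q284.GE.Stm

/-! JOB GE-CIR of helper284: symmetrised polynomials have all their zeros on the unit circle. -/

set_option autoImplicit false

namespace Pool.Agent.Q150.GE

open Finset Polynomial ComplexConjugate
open Pool.Agent.Q284.GE

lemma eval_conj (P : ℂ[X]) (w : ℂ) : (P.map (starRingEnd ℂ)).eval w = conj (P.eval (conj w)) := by
  rw [eval_map, ← Polynomial.eval₂_id (p := P), Polynomial.hom_eval₂]
  simp

lemma refl_eval (P : ℂ[X]) (D : ℕ) (hD : P.natDegree ≤ D) (z : ℂ) (hz : z ≠ 0) :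
    ((P.map (starRingEnd ℂ)).reflect D).eval z = z ^ D * conj (P.eval (conj z)⁻¹) := by
  let _ : Invertible (z⁻¹) := invertibleOfNonzero (inv_ne_zero hz)
  have h := Polynomial.eval₂_reflect_mul_pow (RingHom.id ℂ) (z⁻¹) D (P.map (starRingEnd ℂ))
    ((natDegree_map_le).trans hD)
  rw [invOf_eq_inv, inv_inv, eval₂_id, eval₂_id, eval_conj, map_inv₀] at h
  rw [← h, inv_pow]
  field_simp

theorem t_CIR : S_CIR := by
  intro D ε A hD hε hA0 hA hAz
  obtain ⟨R, hR⟩ : ∃ R : ℂ[X], R = (A.map (starRingEnd ℂ)).reflect D := ⟨_, rfl⟩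
  have hAdeg : A.natDegree ≤ D := by
    rw [natDegree_le_iff_coeff_eq_zero]
    intro n hn
    exact hA n (by omega)
  have hRc : ∀ n, n ≤ D → R.coeff n = conj (A.coeff (D - n)) := by
    intro n hn
    rw [hR, coeff_reflect, revAt_le hn, coeff_map]
  have hRc' : ∀ n, D < n → R.coeff n = 0 := by
    intro n hn
    rw [hR, coeff_reflect, revAt_eq_self_of_lt hn, coeff_map, hA n (by omega), map_zero]
  have hεε : ε * conj ε = 1 := by
    rw [Complex.mul_conj, Complex.normSq_eq_norm_sq, hε]
    norm_num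
  have hε0 : ε ≠ 0 := by
    intro h
    rw [h, norm_zero] at hε
    norm_num at hε
  obtain ⟨b, hb⟩ : ∃ b : ℂ[X], b = A + C ε * R := ⟨_, rfl⟩
  have hbc : ∀ n, n ≤ D → b.coeff n = A.coeff n + ε * conj (A.coeff (D - n)) := by
    intro n hn
    rw [hb, coeff_add, coeff_C_mul, hRc n hn]
  have hbc' : ∀ n, D < n → b.coeff n = 0 := by
    intro n hn
    rw [hb, coeff_add, coeff_C_mul, hRc' n hn, hA n (by omega)]
    ring
  have hbdeg : b.natDegree ≤ D := by
    rw [natDegree_le_iff_coeff_eq_zero]
    intro n hn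
    exact hbc' n hn
  have hfe : ∀ k : ℕ, k ≤ D → b.coeff (D - k) = ε * conj (b.coeff k) := by
    intro k hk
    rw [hbc (D - k) (by omega), hbc k hk, Nat.sub_sub_self hk, map_add, map_mul, Complex.conj_conj]
    linear_combination (-(A.coeff (D - k))) * hεε
  have hbD : b.coeff D = ε := by
    rw [hbc D le_rfl, hA D (by omega), Nat.sub_self, hA0, map_one]
    ring
  -- the eigenvalue equation
  have hbr : ∀ z : ℂ, z ≠ 0 → b.eval z = ε * (z ^ D * conj (b.eval (conj z)⁻¹)) := by
    intro z hz
    rw [← refl_eval b D hbdeg z hz, ← eval_C_mul]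
    congr 1
    ext n
    rw [coeff_C_mul, coeff_reflect, coeff_map]
    rcases Nat.lt_or_ge D n with h | h
    · rw [revAt_eq_self_of_lt h, hbc' n h, map_zero, mul_zero]
    · rw [revAt_le h, ← hfe (D - n) (by omega), Nat.sub_sub_self h]
  -- the boundary
  have hbd : ∀ z : ℂ, ‖z‖ = 1 → ‖R.eval z‖ = ‖A.eval z‖ := by
    intro z hz
    have hz0 : z ≠ 0 := by
      intro h
      rw [h, norm_zero] at hz
      norm_num at hz
    have h1 : (conj z)⁻¹ = z := by
      rw [inv_eq_iff_eq_inv, Complex.inv_def, Complex.normSq_eq_norm_sq, hz]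
      simp
    rw [hR, refl_eval A D hAdeg z hz0, h1, norm_mul, norm_pow, hz, one_pow, one_mul, RCLike.norm_conj]
  -- division by X
  have hR0 : R.coeff 0 = 0 := by
    rw [hRc 0 (Nat.zero_le _), Nat.sub_zero, hA D (by omega), map_zero]
  have hRX : ∀ z : ℂ, R.eval z = z * R.divX.eval z := by
    intro z
    have h1 := congrArg (fun P : ℂ[X] => P.eval z) (divX_mul_X_add R)
    simp only [eval_add, eval_mul, eval_X, eval_C, hR0, add_zero] at h1
    rw [← h1]
    ring
  have hmax : ∀ z : ℂ, ‖z‖ ≤ 1 → ‖R.divX.eval z‖ ≤ ‖A.eval z‖ := by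
    intro z hz
    have hAne : ∀ w ∈ Metric.closedBall (0 : ℂ) 1, A.eval w ≠ 0 := by
      intro w hw
      rw [mem_closedBall_zero_iff] at hw
      exact hAz w hw
    have hd : DiffContOnCl ℂ (fun w : ℂ => R.divX.eval w / A.eval w) (Metric.ball (0 : ℂ) 1) := by
      apply DifferentiableOn.diffContOnCl
      rw [closure_ball (0 : ℂ) one_ne_zero]
      intro w hw
      exact ((R.divX.differentiable w).div (A.differentiable w) (hAne w hw)).differentiableWithinAt
    have h1 := Complex.norm_le_of_forall_mem_frontier_norm_le (C := 1) (Metric.isBounded_ball) hd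
      (fun w hw => by
        rw [frontier_ball (0 : ℂ) one_ne_zero, mem_sphere_zero_iff_norm] at hw
        have h2 := hbd w hw
        rw [hRX, norm_mul, hw, one_mul] at h2
        rw [norm_div, h2]
        exact div_self_le_one _)
      (by
        rw [closure_ball (0 : ℂ) one_ne_zero, mem_closedBall_zero_iff]
        exact hz)
    rw [norm_div, div_le_one (norm_pos_iff.2 (hAz z hz))] at h1
    exact h1
  have hin : ∀ z : ℂ, ‖z‖ < 1 → b.eval z ≠ 0 := by
    intro z hz h0
    have h1 : 0 < ‖A.eval z‖ := norm_pos_iff.2 (hAz z hz.le)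
    have h2 : ‖A.eval z‖ = ‖R.eval z‖ := by
      rw [hb, eval_add, eval_mul, eval_C] at h0
      have h3 : A.eval z = -(ε * R.eval z) := by linear_combination h0
      rw [h3, norm_neg, norm_mul, hε, one_mul]
    rw [hRX, norm_mul] at h2
    have h3 := hmax z hz.le
    nlinarith [norm_nonneg z, norm_nonneg (R.divX.eval z)]
  refine ⟨b, ⟨?_, ?_, hfe, ?_⟩, ?_, ?_⟩
  · exact natDegree_eq_of_le_of_coeff_ne_zero hbdeg (by rw [hbD]; exact hε0)
  · rw [hbc 0 (Nat.zero_le _), hA0, Nat.sub_zero, hA D (by omega), map_zero]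
    ring
  · intro z h0
    rcases lt_trichotomy ‖z‖ 1 with h | h | h
    · exact absurd h0 (hin z h)
    · exact h
    · exfalso
      have hz0 : z ≠ 0 := by
        intro h1
        rw [h1, norm_zero] at h
        norm_num at h
      have h1 := hbr z hz0
      rw [h0] at h1
      have h2 : b.eval (conj z)⁻¹ = 0 := by
        have h3 : conj (b.eval (conj z)⁻¹) = 0 := by
          rcases mul_eq_zero.1 h1.symm with h4 | h4
          · exact absurd h4 hε0
          · rcases mul_eq_zero.1 h4 with h5 | h5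
            · exact absurd h5 (pow_ne_zero _ hz0)
            · exact h5
        rwa [map_eq_zero] at h3
      refine hin _ ?_ h2
      rw [norm_inv, RCLike.norm_conj]
      exact inv_lt_one_of_one_lt₀ h
  · intro n hn
    rw [hbc n (by omega), hA (D - n) (by omega), map_zero]
    ring
  · intro n hn
    rw [hbc n (by omega), hA (D - n) (by omega), map_zero, hA n (by omega)]
    ring

end Pool.Agent.Q150.GE
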